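import Pool.Agent.W31.LD.Defs

/-!
# Project LD, part 2: splitting a set at its diameter
-/

set_option autoImplicit false

namespace Pool.Agent.W513.LD

open W31LD

theorem le_top {A : Finset ℕ} {x y : ℕ} (hx : x ∈ A) (hy : y ∈ A) : dst x y ≤ top A :=
  Finset.le_sup (f := fun p : ℕ × ℕ => dst p.1 p.2)
    (show ((x, y) : ℕ × ℕ) ∈ A ×ˢ A from Finset.mem_product.mpr ⟨hx, hy⟩)

theorem mem_lo {A : Finset ℕ} {x : ℕ} :
    x ∈ lo A ↔ x ∈ A ∧ ∀ y ∈ A, y ≤ x → dst y x < top A := by
  rw [lo, Finset.mem_filter]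

theorem mem_hi {A : Finset ℕ} {x : ℕ} :
    x ∈ hi A ↔ x ∈ A ∧ ∃ y ∈ A, y ≤ x ∧ top A ≤ dst y x := by
  rw [hi, Finset.mem_sdiff, mem_lo]
  constructor
  · rintro ⟨h1, h2⟩
    refine ⟨h1, ?_⟩
    by_contra hcon
    push Not at hcon
    exact h2 ⟨h1, hcon⟩
  · rintro ⟨h1, y, hy, hyx, ht⟩
    exact ⟨h1, fun h => absurd (h.2 y hy hyx) (by omega)⟩

section

variable (hb : T_Bits) {A : Finset ℕ}

include hb

theorem top_pos (hA : 2 ≤ A.card) : 0 < top A := by
  obtain ⟨x, hx, y, hy, hxy⟩ := Finset.one_lt_card.mp (by omega : 1 < A.card)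
  exact lt_of_lt_of_le (hb.2.2.1 x y hxy) (le_top hx hy)

theorem l1 {x y : ℕ} (hx : x ∈ lo A) (hy : y ∈ lo A) : dst x y < top A := by
  rw [mem_lo] at hx hy
  rcases le_total x y with h | h
  · exact hy.2 x hx.1 h
  · rw [hb.1]; exact hx.2 y hy.1 h

theorem hi_wit (ht : 0 < top A) {x : ℕ} (hx : x ∈ hi A) :
    ∃ z ∈ A, z < x ∧ dst z x = top A := by
  rw [mem_hi] at hx
  obtain ⟨hxA, z, hz, hzx, hzt⟩ := hx
  refine ⟨z, hz, lt_of_le_of_ne hzx ?_, le_antisymm (le_top hz hxA) hzt⟩
  rintro rfl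
  rw [hb.2.1] at hzt
  omega

theorem l3' (ht : 0 < top A) {x y : ℕ} (hx : x ∈ hi A) (hy : y ∈ hi A) (hxy : x < y) :
    dst x y < top A := by
  obtain ⟨z, hz, hzx, hzt⟩ := hi_wit hb ht hx
  have h1 := hb.2.2.2.2.1 z x y hzx hxy
  have h2 := le_top (hi_subset A hx) (hi_subset A hy)
  omega

theorem l3 (ht : 0 < top A) {x y : ℕ} (hx : x ∈ hi A) (hy : y ∈ hi A) : dst x y < top A := by
  rcases lt_trichotomy x y with h | h | h
  · exact l3' hb ht hx hy h
  · rw [h, hb.2.1]; exact ht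
  · rw [hb.1]; exact l3' hb ht hy hx h

theorem l2 (ht : 0 < top A) {x y : ℕ} (hx : x ∈ lo A) (hy : y ∈ hi A) :
    dst x y = top A ∧ x < y := by
  obtain ⟨z, hz, hzy, hzt⟩ := hi_wit hb ht hy
  have hzl : z ∈ lo A := by
    by_contra hcon
    have : z ∈ hi A := by
      rw [hi, Finset.mem_sdiff]
      exact ⟨hz, hcon⟩
    have := l3 hb ht this hy
    omega
  have h1 := l1 hb hzl hx
  have h2 := hb.2.2.2.1 z x y
  have h3 := le_top (lo_subset A hx) (hi_subset A hy)
  have h4 : dst x y = top A := by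
    rcases le_max_iff.mp (le_refl (max (dst z x) (dst x y))) with h | h <;> omega
  refine ⟨h4, ?_⟩
  by_contra hcon
  push Not at hcon
  have h5 := (mem_lo.mp hx).2 y (hi_subset A hy) hcon
  rw [hb.1] at h5
  omega

end

theorem done : T_Bits → T_Split := by
  intro hb
  have i3 : ∀ A B : Finset ℕ, B ⊆ A → top B ≤ top A := by
    intro A B h
    exact Finset.sup_mono (Finset.product_subset_product h h)
  refine ⟨?_, ?_, i3, ?_, ?_, ?_, ?_⟩
  · intro A hA
    have ht := top_pos hb hA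
    have hne : A.Nonempty := Finset.card_pos.mp (by omega)
    constructor
    · refine ⟨A.min' hne, mem_lo.mpr ⟨A.min'_mem hne, fun y hy hyx => ?_⟩⟩
      have : y = A.min' hne := le_antisymm hyx (A.min'_le y hy)
      rw [this, hb.2.1]
      exact ht
    · by_contra hcon
      rw [Finset.not_nonempty_iff_eq_empty] at hcon
      have hall : ∀ x ∈ A, x ∈ lo A := by
        intro x hx
        by_contra hx'
        have : x ∈ hi A := by
          rw [hi, Finset.mem_sdiff]
          exact ⟨hx, hx'⟩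
        rw [hcon] at this
        exact absurd this (Finset.notMem_empty x)
      have h1 : top A < top A := by
        conv_lhs => unfold top
        rw [Finset.sup_lt_iff (by exact ht)]
        rintro ⟨x, y⟩ hxy
        rw [Finset.mem_product] at hxy
        exact l1 hb (hall x hxy.1) (hall y hxy.2)
      omega
  · rintro A hA ⟨h1, h2⟩
    have h3 := card_lo_add_card_hi A
    have h4 := Finset.card_pos.mpr h1
    have h5 := Finset.card_pos.mpr h2
    omega
  · intro A B hB hA
    have ht := top_pos hb hA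
    conv_lhs => unfold top
    rw [Finset.sup_lt_iff (by exact ht)]
    rintro ⟨x, y⟩ hxy
    rw [Finset.mem_product] at hxy
    exact l1 hb (hB hxy.1) (hB hxy.2)
  · intro A B hB hA
    have ht := top_pos hb hA
    conv_lhs => unfold top
    rw [Finset.sup_lt_iff (by exact ht)]
    rintro ⟨x, y⟩ hxy
    rw [Finset.mem_product] at hxy
    exact l3 hb ht (hB hxy.1) (hB hxy.2)
  · rintro A B hB ⟨a, ha⟩ ⟨c, hc⟩
    rw [Finset.mem_inter] at ha hc
    have hA : 2 ≤ A.card := by
      have h3 := card_lo_add_card_hi A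
      have h4 := Finset.card_pos.mpr ⟨a, ha.2⟩
      have h5 := Finset.card_pos.mpr ⟨c, hc.2⟩
      omega
    have ht := top_pos hb hA
    have htop : top B = top A := by
      refine le_antisymm (i3 A B hB) ?_
      rw [← (l2 hb ht ha.2 hc.2).1]
      exact le_top ha.1 hc.1
    have hlo : lo B = B ∩ lo A := by
      ext x
      rw [Finset.mem_inter, mem_lo, htop]
      constructor
      · rintro ⟨hxB, hx⟩
        refine ⟨hxB, ?_⟩
        by_contra hcon
        have hxh : x ∈ hi A := by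
          rw [hi, Finset.mem_sdiff]
          exact ⟨hB hxB, hcon⟩
        obtain ⟨h1, h2⟩ := l2 hb ht ha.2 hxh
        have := hx a ha.1 h2.le
        omega
      · rintro ⟨hxB, hx⟩
        exact ⟨hxB, fun y hy hyx => (mem_lo.mp hx).2 y (hB hy) hyx⟩
    refine ⟨htop, hlo, ?_⟩
    ext x
    rw [hi, hlo, hi, Finset.mem_sdiff, Finset.mem_inter, Finset.mem_inter, Finset.mem_sdiff]
    constructor
    · rintro ⟨h1, h2⟩
      exact ⟨h1, hB h1, fun h => h2 ⟨h1, h⟩⟩
    · rintro ⟨h1, -, h3⟩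
      exact ⟨h1, fun h => h3 h.2⟩
  · intro m A hA
    unfold top
    refine Finset.sup_le ?_
    rintro ⟨x, y⟩ hxy
    rw [Finset.mem_product] at hxy
    exact hb.2.2.2.2.2 m x y (Finset.mem_range.mp (hA hxy.1)) (Finset.mem_range.mp (hA hxy.2))

end Pool.Agent.W513.LD
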